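import Mathlib
import Pool.Agent.Helper23.Riesz.AsmOwn
import Pool.Agent.Helper9.Riesz.MainPos
import Pool.Agent.Helper63.Riesz.TargetReal
import Pool.Agent.Helper95.Riesz.Cell

/-!
# Two-term asymptotics of the optimal Riesz energy on the sphere

For every `d ≥ 2` and every `s ∈ (-2, d + 2)`, `s ≠ d`, the optimal Riesz `s`-energy of `N` points
on the unit sphere of `ℝ^{d+1}` is `N² V_s + ω_d^{-s/d} C N^{1+s/d} + o(N^{1+s/d})`.
-/

set_option autoImplicit false
open MeasureTheory Set Filter Topology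
open scoped ENNReal NNReal

namespace Pool.Agent.Results.MP_d18e52_an.TwoTermExpansion

/-- the unit sphere `S^d` of the Euclidean space `ℝ^{d+1}` -/
abbrev Sph (d : ℕ) : Type := Metric.sphere (0 : EuclideanSpace ℝ (Fin (d + 1))) 1

/-- the unit cube `[0,1]^d` of the Euclidean space `ℝ^d` -/
abbrev Cub (d : ℕ) : Type := {x : EuclideanSpace ℝ (Fin d) // ∀ k, 0 ≤ x k ∧ x k ≤ 1}

/-- the infimum of `∑_{i ≠ j} |x_i - x_j|^{-s}` over all `N`-tuples of points of `X`, in `[0, ∞]`
(for `s > 0` the kernel is `∞` if two of the points coincide) -/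
noncomputable def infEnergy (X : Type) [MetricSpace X] (s : ℝ) (N : ℕ) : ℝ≥0∞ :=
  ⨅ x : Fin N → X, ∑ i, ∑ j ∈ Finset.univ.erase i, (edist (x i) (x j)) ^ (-s)

/-- the supremum of `∑_{i ≠ j} |x_i - x_j|^{-s}` over all `N`-tuples of points of `X`
(used for `s ≤ 0`; the kernel is `1` for `s = 0`) -/
noncomputable def supEnergy (X : Type) [MetricSpace X] (s : ℝ) (N : ℕ) : ℝ :=
  ⨆ x : Fin N → X, ∑ i, ∑ j ∈ Finset.univ.erase i, (dist (x i) (x j)) ^ (-s)

/-- the optimal Riesz `s`-energy of `N` points on `S^d`: the infimum for `s > 0`, the supremum for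
`s ≤ 0` -/
noncomputable def sphereEnergy (s : ℝ) (d N : ℕ) : ℝ :=
  if 0 < s then (infEnergy (Sph d) s N).toReal else supEnergy (Sph d) s N

/-- the minimal Riesz `s`-energy of `N` points in the unit cube of `ℝ^d` -/
noncomputable def cubeEnergy (s : ℝ) (d N : ℕ) : ℝ := (infEnergy (Cub d) s N).toReal

/-- the surface area `ω_d` of `S^d` -/
noncomputable def area (d : ℕ) : ℝ :=
  2 * Real.pi ^ (((d:ℝ) + 1) / 2) / Real.Gamma (((d:ℝ) + 1) / 2)

/-- the constant `V_s(S^d)` -/
noncomputable def VV (s : ℝ) (d : ℕ) : ℝ :=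
  (2:ℝ) ^ ((d:ℝ) - s - 1) * Real.Gamma (((d:ℝ) + 1) / 2) * Real.Gamma (((d:ℝ) - s) / 2) /
    (Real.sqrt Real.pi * Real.Gamma ((d:ℝ) - s / 2))

/-- the normalised surface measure of the unit sphere of `E` -/
noncomputable def sigma (E : Type) [NormedAddCommGroup E] [NormedSpace ℝ E] [MeasureSpace E] :
    Measure (Metric.sphere (0 : E) 1) :=
  ((volume : Measure E).toSphere univ)⁻¹ • (volume : Measure E).toSphere

/-- the energy integral of the normalised surface measure of the unit sphere of `E` -/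
noncomputable def energyIntegral (s : ℝ) (E : Type) [NormedAddCommGroup E] [NormedSpace ℝ E]
    [MeasureSpace E] : ℝ :=
  ∫ x, ∫ y, (dist x y) ^ (-s) ∂(sigma E) ∂(sigma E)

/-- `N^{-1-s/d}` times the minimal energy of `N` points in the unit cube tends to `C` -/
def CubeLimit (s : ℝ) (d : ℕ) (C : ℝ) : Prop :=
  Tendsto (fun N : ℕ => (N:ℝ) ^ (-1 - s / (d:ℝ)) * cubeEnergy s d N) atTop (𝓝 C)

/-- the remainder of the two-term expansion with the constant `C` -/
noncomputable def remainder (s : ℝ) (d : ℕ) (C : ℝ) (N : ℕ) : ℝ :=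
  sphereEnergy s d N - (N:ℝ) ^ 2 * VV s d - (area d) ^ (-s / (d:ℝ)) * C * (N:ℝ) ^ (1 + s / (d:ℝ))

/-- energies of finite sets -/
def energies (X : Type) [MetricSpace X] (s : ℝ) (N : ℕ) : Set ℝ :=
  {e : ℝ | ∃ Y : Finset X, Y.card = N ∧
    e = open Classical in ∑ x ∈ Y, ∑ y ∈ Y.erase x, (dist x y) ^ (-s)}

section Inf

variable {X : Type} [MetricSpace X] {s : ℝ} {N : ℕ}

theorem tuple_mem (x : Fin N → X) (hx : Function.Injective x) :
    ∑ i, ∑ j ∈ Finset.univ.erase i, (dist (x i) (x j)) ^ (-s) ∈ energies X s N := by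
  classical
  refine ⟨Finset.univ.map ⟨x, hx⟩, by simp, ?_⟩
  rw [Finset.sum_map]
  refine Finset.sum_congr rfl fun i _ => ?_
  have h : (Finset.univ.map ⟨x, hx⟩).erase ((⟨x, hx⟩ : Fin N ↪ X) i) =
      (Finset.univ.erase i).map ⟨x, hx⟩ := (Finset.map_erase _ _ _).symm
  rw [h, Finset.sum_map]
  rfl

theorem exists_tuple {e : ℝ} (he : e ∈ energies X s N) : ∃ x : Fin N → X, Function.Injective x ∧
    e = ∑ i, ∑ j ∈ Finset.univ.erase i, (dist (x i) (x j)) ^ (-s) := by
  classical
  obtain ⟨Y, hY, rfl⟩ := he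
  let e : Fin N ≃ Y := (Finset.equivFinOfCardEq hY).symm
  have hinj : Function.Injective fun i => (e i : X) := fun i j hij =>
    e.injective (Subtype.ext hij)
  refine ⟨fun i => e i, hinj, ?_⟩
  have hYm : Finset.univ.map ⟨fun i => (e i : X), hinj⟩ = Y := by
    ext y
    simp only [Finset.mem_map, Finset.mem_univ, Function.Embedding.coeFn_mk, true_and]
    constructor
    · rintro ⟨i, rfl⟩
      exact (e i).2
    · intro hy
      exact ⟨e.symm ⟨y, hy⟩, by simp⟩
  conv_lhs => rw [← hYm]
  rw [Finset.sum_map]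
  refine Finset.sum_congr rfl fun i _ => ?_
  have h : (Finset.univ.map ⟨fun i => (e i : X), hinj⟩).erase
      ((⟨fun i => (e i : X), hinj⟩ : Fin N ↪ X) i) =
      (Finset.univ.erase i).map ⟨fun i => (e i : X), hinj⟩ := (Finset.map_erase _ _ _).symm
  rw [h, Finset.sum_map]
  rfl

theorem energies_nonneg {e : ℝ} (he : e ∈ energies X s N) : 0 ≤ e := by
  classical
  obtain ⟨Y, -, rfl⟩ := he
  exact Finset.sum_nonneg fun x _ => Finset.sum_nonneg fun y _ => Real.rpow_nonneg dist_nonneg _

theorem ennreal_sum (x : Fin N → X) (hx : Function.Injective x) :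
    ∑ i, ∑ j ∈ Finset.univ.erase i, (edist (x i) (x j)) ^ (-s) =
      ENNReal.ofReal (∑ i, ∑ j ∈ Finset.univ.erase i, (dist (x i) (x j)) ^ (-s)) := by
  rw [ENNReal.ofReal_sum_of_nonneg fun i _ => Finset.sum_nonneg fun j _ =>
    Real.rpow_nonneg dist_nonneg _]
  refine Finset.sum_congr rfl fun i _ => ?_
  rw [ENNReal.ofReal_sum_of_nonneg fun j _ => Real.rpow_nonneg dist_nonneg _]
  refine Finset.sum_congr rfl fun j hj => ?_
  have hij : x i ≠ x j := fun h => (Finset.ne_of_mem_erase hj) (hx h).symm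
  rw [edist_dist, ENNReal.ofReal_rpow_of_pos (dist_pos.2 hij)]

theorem ennreal_sum_top (hs : 0 < s) (x : Fin N → X) (hx : ¬ Function.Injective x) :
    ∑ i, ∑ j ∈ Finset.univ.erase i, (edist (x i) (x j)) ^ (-s) = ⊤ := by
  unfold Function.Injective at hx
  push Not at hx
  obtain ⟨i, j, hij, hne⟩ := hx
  rw [ENNReal.sum_eq_top]
  refine ⟨i, Finset.mem_univ _, ?_⟩
  rw [ENNReal.sum_eq_top]
  refine ⟨j, Finset.mem_erase.2 ⟨hne.symm, Finset.mem_univ _⟩, ?_⟩
  rw [hij, edist_self, ENNReal.zero_rpow_of_neg (by linarith)]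

theorem infEnergy_eq (hX : Infinite X) (hs : 0 < s) :
    (infEnergy X s N).toReal = sInf (energies X s N) := by
  have hle : ∀ e ∈ energies X s N, infEnergy X s N ≤ ENNReal.ofReal e := by
    intro e he
    obtain ⟨x, hx, rfl⟩ := exists_tuple he
    rw [← ennreal_sum x hx]
    exact iInf_le _ x
  have hne : (energies X s N).Nonempty := by
    obtain ⟨Y, hY⟩ := Infinite.exists_subset_card_eq X N
    exact ⟨_, Y, hY, rfl⟩
  have hbdd : BddBelow (energies X s N) := ⟨0, fun e he => energies_nonneg he⟩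
  have hge : ENNReal.ofReal (sInf (energies X s N)) ≤ infEnergy X s N := by
    refine le_iInf fun x => ?_
    by_cases hx : Function.Injective x
    · rw [ennreal_sum x hx]
      exact ENNReal.ofReal_le_ofReal (csInf_le hbdd (tuple_mem x hx))
    · rw [ennreal_sum_top hs x hx]
      exact le_top
  have htop : infEnergy X s N ≠ ⊤ := by
    obtain ⟨e, he⟩ := hne
    exact ne_top_of_le_ne_top ENNReal.ofReal_ne_top (hle e he)
  apply le_antisymm
  · refine le_csInf hne fun e he => ?_
    have h1 := ENNReal.toReal_mono ENNReal.ofReal_ne_top (hle e he)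
    rwa [ENNReal.toReal_ofReal (energies_nonneg he)] at h1
  · have h1 := ENNReal.toReal_mono htop hge
    rwa [ENNReal.toReal_ofReal (Real.sInf_nonneg fun e he => energies_nonneg he)] at h1

end Inf

open Helper23.Riesz Helper23.RieszOwn

theorem energies_sphere (s : ℝ) (d N : ℕ) :
    energies (Sph d) s N = {e : ℝ | ∃ Y : Finset (S d), Y.card = N ∧ e = en s Y} := by
  classical
  have h : ∀ Y : Finset (S d), en s Y =
      open Classical in ∑ x ∈ Y, ∑ y ∈ Y.erase x, (dist x y) ^ (-s) := by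
    intro Y
    unfold en K
    refine Finset.sum_congr rfl fun x _ => ?_
    exact Finset.sum_congr (by ext z; simp only [Finset.mem_erase]) (fun y _ => rfl)
  ext e
  constructor
  · rintro ⟨Y, hY, he⟩
    refine ⟨Y, hY, ?_⟩
    rw [he, h]
    refine Finset.sum_congr rfl fun x _ => ?_
    exact Finset.sum_congr (by ext z; simp only [Finset.mem_erase]) (fun y _ => rfl)
  · rintro ⟨Y, hY, he⟩
    refine ⟨Y, hY, ?_⟩
    rw [he, h]
    refine Finset.sum_congr rfl fun x _ => ?_
    exact Finset.sum_congr (by ext z; simp only [Finset.mem_erase]) (fun y _ => rfl)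

theorem sphere_inf {d : ℕ} (hd : 1 ≤ d) {s : ℝ} (hs : 0 < s) (N : ℕ) :
    (infEnergy (Sph d) s N).toReal = Emin s d N := by
  rw [infEnergy_eq (Set.infinite_univ_iff.1 (Helper23.RieszOwn.infinite_S hd)) hs, energies_sphere, Emin]

theorem sphere_sup {d : ℕ} (hd : 1 ≤ d) {s : ℝ} (hs : s ≤ 0) (N : ℕ) :
    supEnergy (Sph d) s N = Emax s d N := by
  classical
  have hinf : (Set.univ : Set (S d)).Infinite := infinite_S hd
  have : Infinite (Sph d) := Set.infinite_univ_iff.1 hinf
  have hne : (energies (Sph d) s N).Nonempty := by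
    obtain ⟨Y, hY⟩ := Infinite.exists_subset_card_eq (Sph d) N
    exact ⟨_, Y, hY, rfl⟩
  have : Nonempty (Fin N → Sph d) := ⟨fun _ => Classical.arbitrary _⟩
  have hle : ∀ x : Fin N → Sph d,
      ∑ i, ∑ j ∈ Finset.univ.erase i, (dist (x i) (x j)) ^ (-s) ≤ Emax s d N := by
    intro x
    rcases eq_or_lt_of_le hs with h0 | h0
    · subst h0
      rw [Emax_zero hd]
      have h1 : ∀ i : Fin N, ∑ j ∈ Finset.univ.erase i, (dist (x i) (x j)) ^ (-(0:ℝ)) =
          (N:ℝ) - 1 := by
        intro i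
        have hN : 1 ≤ N := by
          have := i.2
          omega
        simp only [neg_zero, Real.rpow_zero, Finset.sum_const, nsmul_eq_mul, mul_one,
          Finset.card_erase_of_mem (Finset.mem_univ i), Finset.card_univ, Fintype.card_fin]
        push_cast [hN]
        ring
      rw [Finset.sum_congr rfl fun i _ => h1 i]
      simp only [Finset.sum_const, Finset.card_univ, Fintype.card_fin, nsmul_eq_mul]
      exact le_of_eq (by ring)
    · have h1 := tuple_le_Emax hd h0 x
      refine le_trans (le_of_eq ?_) h1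
      refine Finset.sum_congr rfl fun i _ => ?_
      rw [← Finset.sum_erase_add _ _ (Finset.mem_univ i), dist_self,
        Real.zero_rpow (by linarith), add_zero]
  apply le_antisymm
  · exact ciSup_le hle
  · have hE : Emax s d N = sSup (energies (Sph d) s N) := by rw [energies_sphere, Emax]
    have hbdd : BddAbove (Set.range fun x : Fin N → Sph d =>
        ∑ i, ∑ j ∈ Finset.univ.erase i, (dist (x i) (x j)) ^ (-s)) :=
      ⟨Emax s d N, by rintro _ ⟨x, rfl⟩; exact hle x⟩
    have h2 : sSup (energies (Sph d) s N) ≤ supEnergy (Sph d) s N := by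
      refine csSup_le hne fun e he => ?_
      obtain ⟨x, -, rfl⟩ := exists_tuple he
      exact le_ciSup hbdd x
    rw [hE]
    exact h2

theorem cube_inf {d : ℕ} (hd : 1 ≤ d) {s : ℝ} (hs : 0 < s) (N : ℕ) :
    cubeEnergy s d N = Ecube s d N := by
  classical
  have hmem : ∀ x : R d, x ∈ cube (0 : R d) 1 ↔ ∀ k, 0 ≤ x k ∧ x k ≤ 1 := by
    intro x
    simp [cube]
  have : Infinite (Cub d) := by
    have h1 := cube_infinite hd
    have h2 : (cube (0 : R d) 1) = {x : R d | ∀ k, 0 ≤ x k ∧ x k ≤ 1} := by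
      ext x
      exact hmem x
    rw [h2] at h1
    exact h1.to_subtype
  unfold cubeEnergy
  rw [infEnergy_eq ‹_› hs]
  unfold Ecube
  congr 1
  ext e
  constructor
  · rintro ⟨Y, hY, rfl⟩
    refine ⟨Y.map (Function.Embedding.subtype _), by simpa using hY, ?_, ?_⟩
    · intro x hx
      obtain ⟨y, -, rfl⟩ := Finset.mem_map.1 hx
      exact (hmem _).2 y.2
    · unfold enR
      rw [Finset.sum_map]
      refine Finset.sum_congr rfl fun x _ => ?_
      rw [← Finset.map_erase, Finset.sum_map]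
      exact Finset.sum_congr (by ext z; simp only [Finset.mem_erase]) (fun y _ => rfl)
  · rintro ⟨Y, hY, hQ, rfl⟩
    refine ⟨Y.subtype _, ?_, ?_⟩
    · rw [Finset.card_subtype, Finset.filter_true_of_mem fun x hx => (hmem x).1 (hQ x hx)]
      exact hY
    · unfold enR
      have hYm : (Y.subtype fun x => ∀ k, 0 ≤ x k ∧ x k ≤ 1).map
          (Function.Embedding.subtype _) = Y := by
        rw [Finset.subtype_map, Finset.filter_true_of_mem fun x hx => (hmem x).1 (hQ x hx)]
      conv_lhs => rw [← hYm]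
      rw [Finset.sum_map]
      refine Finset.sum_congr rfl fun x _ => ?_
      rw [← Finset.map_erase, Finset.sum_map]
      exact Finset.sum_congr (by ext z; simp only [Finset.mem_erase]) (fun y _ => rfl)

/-- **Two-term asymptotics of the optimal Riesz energy on the sphere.** Let `d ≥ 2`,
`-2 < s < d + 2` and `s ≠ d`. There is a constant `C = C_{s,d}`, equal for `s > d` to the limit of
`N^{-1-s/d}` times the minimal energy of `N` points in the unit cube of `ℝ^d`, such that the optimal
energy of `N` points on `S^d` is `N² V_s + ω_d^{-s/d} C N^{1+s/d} + o(N^{1+s/d})`. Moreover `C ≤ 0`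
for `s < d`, `C = -1` for `s = 0`, `C ≥ 0` for `s > d`, and for `s < d` the constant `V_s` is the
energy integral of the normalised surface measure. -/
theorem result : ∀ d : ℕ, 2 ≤ d → ∀ s : ℝ, -2 < s → s < (d:ℝ) + 2 → s ≠ (d:ℝ) →
    (s < d → VV s d = energyIntegral s (EuclideanSpace ℝ (Fin (d + 1)))) ∧
    ∃ C : ℝ, ((d:ℝ) < s → CubeLimit s d C) ∧
      (fun N : ℕ => remainder s d C N) =o[atTop] (fun N : ℕ => (N:ℝ) ^ (1 + s / (d:ℝ))) ∧
      (s < d → C ≤ 0) ∧ (s = 0 → C = -1) ∧ ((d:ℝ) < s → 0 ≤ C) := by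
  intro d hd s hs1 hs2 hsd
  have hd1 : 1 ≤ d := by omega
  have hd0 : (0:ℝ) < d := by exact_mod_cast hd1
  have hom : 0 < omega d := omega_pos hd1
  have hareaeq : area d = omega d := (omega_eq hd1).symm
  refine ⟨fun h => (V_eq hd1 h).symm, ?_⟩
  unfold CubeLimit remainder
  rw [hareaeq]
  rcases lt_trichotomy s 0 with h0 | h0 | h0
  · -- s < 0
    have hsd' : s < d := by linarith
    have hVV : VV s d = V s d := (V_eq hd1 hsd').symm
    obtain ⟨C, hC⟩ := Helper23.Riesz.main_neg_of_source hd hs1 h0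
      (fun L hL ε hε => Helper23.Riesz.cell_exists hd hs1 h0 L hL ε hε)
    have hC0 : 0 ≤ C := by
      refine ge_of_tendsto' hC fun N => ?_
      exact div_nonneg (gap_nonneg_of (targetFacts hd hs1 h0) h0 N)
        (Real.rpow_nonneg (Nat.cast_nonneg _) _)
    refine ⟨-(C * (omega d) ^ (s / (d:ℝ))), fun h => absurd h (by linarith), ?_, ?_, ?_, ?_⟩
    · have h1 := (littleO_of_tendsto hC).neg_left
      refine h1.congr_left fun N => ?_
      unfold sphereEnergy
      rw [if_neg (by linarith), sphere_sup hd1 h0.le, hVV]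
      have h2 : (omega d) ^ (-s / (d:ℝ)) * (omega d) ^ (s / (d:ℝ)) = 1 := by
        rw [← Real.rpow_add hom, neg_div, neg_add_cancel, Real.rpow_zero]
      unfold gap
      linear_combination (-(C * (N:ℝ) ^ (1 + s / (d:ℝ)))) * h2
    · intro _
      have := mul_nonneg hC0 (Real.rpow_nonneg hom.le (s / (d:ℝ)))
      linarith
    · intro h
      exact absurd h h0.ne
    · intro h
      linarith
  · -- s = 0
    subst h0
    have hVV : VV 0 d = V 0 d := (V_eq hd1 hd0).symm
    refine ⟨-1, fun h => absurd h (by linarith), ?_, fun _ => by norm_num, fun _ => rfl,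
      fun h => by linarith⟩
    refine (Asymptotics.isLittleO_zero _ _).congr_left fun N => ?_
    unfold sphereEnergy
    rw [if_neg (lt_irrefl _), sphere_sup hd1 le_rfl, Emax_zero hd1, hVV, V_zero]
    simp
  · rcases lt_or_gt_of_ne hsd with h1 | h1
    · have hVV : VV s d = V s d := (V_eq hd1 h1).symm
      obtain ⟨C, hC⟩ := main_pos hd1 h0 h1
      have hC0 : C ≤ 0 := by
        refine le_of_tendsto' hC fun N => ?_
        exact div_nonpos_of_nonpos_of_nonneg (by linarith [energy_upper hd1 h0 h1 N])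
          (Real.rpow_nonneg (Nat.cast_nonneg _) _)
      refine ⟨C * (omega d) ^ (s / (d:ℝ)), fun h => absurd h (by linarith), ?_, ?_, ?_, ?_⟩
      · have h2 := littleO_of_tendsto hC
        refine h2.congr_left fun N => ?_
        unfold sphereEnergy
        rw [if_pos h0, sphere_inf hd1 h0, hVV]
        have h3 : (omega d) ^ (-s / (d:ℝ)) * (omega d) ^ (s / (d:ℝ)) = 1 := by
          rw [← Real.rpow_add hom, neg_div, neg_add_cancel, Real.rpow_zero]
        linear_combination ((C * (N:ℝ) ^ (1 + s / (d:ℝ)))) * h3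
      · intro _
        exact mul_nonpos_of_nonpos_of_nonneg hC0 (Real.rpow_nonneg hom.le _)
      · intro h
        exact absurd h h0.ne'
      · intro h
        linarith
    · obtain ⟨C, hC1, hC2⟩ := asm_big hd1 h1 (VV s d)
      refine ⟨C, fun _ => ?_, ?_, fun h => absurd h (by linarith), fun h => absurd h h0.ne', ?_⟩
      · simp_rw [cube_inf hd1 h0]
        exact hC1
      · refine hC2.congr_left fun N => ?_
        unfold sphereEnergy
        rw [if_pos h0, sphere_inf hd1 h0]
      · intro _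
        refine ge_of_tendsto' hC1 fun N => ?_
        exact mul_nonneg (Real.rpow_nonneg (Nat.cast_nonneg _) _) (Ecube_nonneg s d N)

end Pool.Agent.Results.MP_d18e52_an.TwoTermExpansion
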